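import Mathlib

/-!
Combinatorial core for the stopping time space.
-/

set_option autoImplicit false

namespace Pool.Agent.X212.Stop

open Finset

/-- Nodes of the binary tree. -/
abbrev Nd := List Bool

/-- Finite antichains. -/
def AC (A : Finset Nd) : Prop := IsAntichain (fun s t : Nd => s <+: t) (A : Set Nd)

/-- The stopping time norm of a finitely supported family. -/
noncomputable def stNorm (x : Nd →₀ ℝ) : ℝ := ⨆ A : {A : Finset Nd // AC A}, ∑ t ∈ A.1, |x t|

instance : Nonempty {A : Finset Nd // AC A} := ⟨⟨∅, by simp [AC]⟩⟩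

lemma bddAbove_stNorm (x : Nd →₀ ℝ) :
    BddAbove (Set.range fun A : {A : Finset Nd // AC A} => ∑ t ∈ A.1, |x t|) := by
  refine ⟨∑ t ∈ x.support, |x t|, ?_⟩
  rintro _ ⟨A, rfl⟩
  have h1 : ∑ t ∈ A.1, |x t| = ∑ t ∈ A.1.filter (· ∈ x.support), |x t| := by
    rw [Finset.sum_filter]
    refine Finset.sum_congr rfl fun t _ => ?_
    by_cases h : t ∈ x.support
    · simp [h]
    · have h' : x t = 0 := Finsupp.notMem_support_iff.1 h
      simp [h, h']
  show ∑ t ∈ A.1, |x t| ≤ _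
  rw [h1]
  exact Finset.sum_le_sum_of_subset_of_nonneg (fun t ht => (Finset.mem_filter.1 ht).2)
    fun _ _ _ => abs_nonneg _

lemma le_stNorm (x : Nd →₀ ℝ) {A : Finset Nd} (hA : AC A) : ∑ t ∈ A, |x t| ≤ stNorm x :=
  le_ciSup (bddAbove_stNorm x) ⟨A, hA⟩

lemma stNorm_le {x : Nd →₀ ℝ} {c : ℝ} (h : ∀ A : Finset Nd, AC A → ∑ t ∈ A, |x t| ≤ c) :
    stNorm x ≤ c := ciSup_le fun A => h A.1 A.2

lemma AC.subset {A B : Finset Nd} (hA : AC A) (h : B ⊆ A) : AC B :=
  IsAntichain.subset hA (by exact_mod_cast h)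

lemma AC.singleton (t : Nd) : AC {t} := by
  simp [AC]

lemma AC.empty : AC ∅ := by simp [AC]

/-- Cones of different nodes of the same length are incomparable. -/
lemma not_prefix_of_ne {s s' u v : Nd} (hl : s.length = s'.length) (hne : s ≠ s') (hu : s <+: u)
    (hv : s' <+: v) : ¬ u <+: v := by
  intro h
  have h1 : s <+: v := hu.trans h
  have h2 : s <+: s' := List.prefix_of_prefix_length_le h1 hv hl.le
  exact hne (h2.eq_of_length hl)

/-- Path sums. -/
def ps (φ : Nd → ℝ) : Nd → Nd → ℝ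
  | t, [] => φ t
  | t, b :: w => φ t + ps φ (t ++ [b]) w

lemma ps_nonneg {φ : Nd → ℝ} (hφ : ∀ u, 0 ≤ φ u) (t w : Nd) : 0 ≤ ps φ t w := by
  induction w generalizing t with
  | nil => exact hφ t
  | cons b w ih => exact add_nonneg (hφ t) (ih _)

lemma ps_append (φ : Nd → ℝ) (t v : Nd) (b : Bool) (w : Nd) :
    ps φ t (v ++ b :: w) = ps φ t v + ps φ (t ++ v ++ [b]) w := by
  induction v generalizing t with
  | nil => simp [ps]
  | cons c v ih =>
    simp only [List.cons_append, ps]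
    rw [ih]
    simp only [List.append_assoc, List.cons_append, List.nil_append]
    ring

lemma ps_le {φ : Nd → ℝ} (hφ : ∀ u, 0 ≤ φ u) {M : ℝ} (hM : ∀ w, ps φ [] w ≤ M) (t w : Nd) :
    ps φ t w ≤ M := by
  rcases List.eq_nil_or_concat t with h | ⟨s, b, h⟩
  · rw [h]; exact hM w
  · have h1 := hM (s ++ b :: w)
    rw [ps_append] at h1
    have h2 := ps_nonneg hφ [] s
    have h3 : ([] : Nd) ++ s ++ [b] = t := by rw [h]; simp
    rw [h3] at h1
    linarith

lemma le_M {φ : Nd → ℝ} (hφ : ∀ u, 0 ≤ φ u) {M : ℝ} (hM : ∀ w, ps φ [] w ≤ M) (t : Nd) :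
    φ t ≤ M := ps_le hφ hM t []

/-- Above every node there is a node with small path sums. -/
lemma exists_small {φ : Nd → ℝ} (hφ : ∀ u, 0 ≤ φ u) {M : ℝ} (hM : ∀ w, ps φ [] w ≤ M) (s : Nd)
    {ε : ℝ} (hε : 0 < ε) : ∃ v : Nd, ∀ w, ps φ (s ++ v) w ≤ ε := by
  by_contra hcon
  push Not at hcon
  have h1 : ∀ m : ℕ, ∃ v : Nd, m * ε ≤ ps φ s v := by
    intro m
    induction m with
    | zero => exact ⟨[], by simpa using ps_nonneg hφ s []⟩
    | succ m ih =>
      obtain ⟨v, hv⟩ := ih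
      obtain ⟨w, hw⟩ := hcon (v ++ [false])
      refine ⟨v ++ false :: w, ?_⟩
      rw [ps_append, List.append_assoc]
      push_cast
      linarith
  obtain ⟨m, hm⟩ := exists_nat_gt (M / ε)
  obtain ⟨v, hv⟩ := h1 m
  have h2 := ps_le hφ hM s v
  rw [div_lt_iff₀ hε] at hm
  linarith

/-- Sums over the descendants up to a given depth. -/
def Sm (h : Nd → ℝ) : ℕ → Nd → ℝ
  | 0, t => h t
  | n + 1, t => h t + Sm h n (t ++ [false]) + Sm h n (t ++ [true])

lemma Sm_nonneg {h : Nd → ℝ} (h0 : ∀ u, 0 ≤ h u) (n : ℕ) (t : Nd) : 0 ≤ Sm h n t := by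
  induction n generalizing t with
  | zero => exact h0 t
  | succ n ih => exact add_nonneg (add_nonneg (h0 t) (ih _)) (ih _)

lemma sum_le_Sm {h : Nd → ℝ} (h0 : ∀ u, 0 ≤ h u) (n : ℕ) (t : Nd) (E : Finset Nd)
    (hE : ∀ u ∈ E, t <+: u ∧ u.length ≤ t.length + n) : ∑ u ∈ E, h u ≤ Sm h n t := by
  induction n generalizing t E with
  | zero =>
    have h1 : E ⊆ {t} := by
      intro u hu
      obtain ⟨h2, h3⟩ := hE u hu
      rw [Finset.mem_singleton]
      exact (h2.eq_of_length (le_antisymm h2.length_le (by simpa using h3))).symm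
    refine (Finset.sum_le_sum_of_subset_of_nonneg h1 fun _ _ _ => h0 _).trans ?_
    simp [Sm]
  | succ n ih =>
    have h1 : E ⊆ {t} ∪ (E.filter (fun u => t ++ [false] <+: u) ∪
        E.filter (fun u => t ++ [true] <+: u)) := by
      intro u hu
      obtain ⟨⟨w, hw⟩, -⟩ := hE u hu
      rcases w with _ | ⟨b, w⟩
      · simp at hw
        simp [hw]
      · have h4 : t ++ [b] <+: u := ⟨w, by rw [← hw]; simp⟩
        cases b
        · exact Finset.mem_union_right _ (Finset.mem_union_left _ (Finset.mem_filter.2 ⟨hu, h4⟩))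
        · exact Finset.mem_union_right _ (Finset.mem_union_right _ (Finset.mem_filter.2 ⟨hu, h4⟩))
    have h2 : ∀ b : Bool, ∑ u ∈ E.filter (fun u => t ++ [b] <+: u), h u ≤ Sm h n (t ++ [b]) := by
      intro b
      refine ih _ _ fun u hu => ?_
      obtain ⟨h5, h6⟩ := Finset.mem_filter.1 hu
      have h7 := (hE u h5).2
      refine ⟨h6, ?_⟩
      simp only [List.length_append, List.length_singleton]
      omega
    calc ∑ u ∈ E, h u ≤ ∑ u ∈ {t} ∪ (E.filter (fun u => t ++ [false] <+: u) ∪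
          E.filter (fun u => t ++ [true] <+: u)), h u :=
          Finset.sum_le_sum_of_subset_of_nonneg h1 fun _ _ _ => h0 _
      _ ≤ ∑ u ∈ {t}, h u + ∑ u ∈ (E.filter (fun u => t ++ [false] <+: u) ∪
          E.filter (fun u => t ++ [true] <+: u)), h u := by
          rw [← Finset.sum_union_inter]
          exact le_add_of_nonneg_right (Finset.sum_nonneg fun _ _ => h0 _)
      _ ≤ ∑ u ∈ {t}, h u + (∑ u ∈ E.filter (fun u => t ++ [false] <+: u), h u +
          ∑ u ∈ E.filter (fun u => t ++ [true] <+: u), h u) := by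
          refine add_le_add le_rfl ?_
          rw [← Finset.sum_union_inter]
          exact le_add_of_nonneg_right (Finset.sum_nonneg fun _ _ => h0 _)
      _ ≤ h t + (Sm h n (t ++ [false]) + Sm h n (t ++ [true])) := by
          rw [Finset.sum_singleton]
          exact add_le_add le_rfl (add_le_add (h2 _) (h2 _))
      _ = Sm h (n + 1) t := by simp [Sm]; ring

/-- Duality between path sums and antichain sums. -/
lemma key {φ : Nd → ℝ} (hφ : ∀ u, 0 ≤ φ u) {z : Nd → ℝ} (hz : ∀ u, 0 ≤ z u) (n : ℕ) (t : Nd)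
    (g : ℝ) (hg : ∀ w, ps φ t w ≤ g) :
    ∃ A : Finset Nd, AC A ∧ (∀ u ∈ A, t <+: u) ∧
      Sm (fun u => φ u * z u) n t ≤ g * ∑ u ∈ A, z u := by
  classical
  induction n generalizing t g with
  | zero =>
    refine ⟨{t}, AC.singleton t, ?_, ?_⟩
    · intro u hu
      rw [Finset.mem_singleton.1 hu]
    · rw [Finset.sum_singleton]
      exact mul_le_mul_of_nonneg_right (hg []) (hz t)
  | succ n ih =>
    have h1 : ∀ (b : Bool) (w : Nd), ps φ (t ++ [b]) w ≤ g - φ t := by
      intro b w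
      have := hg (b :: w)
      simp only [ps] at this
      linarith
    have hg' : 0 ≤ g - φ t := (ps_nonneg hφ _ []).trans (h1 false [])
    obtain ⟨A0, hA0, hc0, hs0⟩ := ih (t ++ [false]) _ (h1 false)
    obtain ⟨A1, hA1, hc1, hs1⟩ := ih (t ++ [true]) _ (h1 true)
    have hne : t ++ [false] ≠ t ++ [true] := by simp
    have hl : (t ++ [false]).length = (t ++ [true]).length := by simp
    have hAC : AC (A0 ∪ A1) := by
      intro u hu v hv huv hp
      have hu' : u ∈ A0 ∪ A1 := hu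
      have hv' : v ∈ A0 ∪ A1 := hv
      rcases Finset.mem_union.1 hu' with h2 | h2 <;> rcases Finset.mem_union.1 hv' with h3 | h3
      · exact hA0 h2 h3 huv hp
      · exact not_prefix_of_ne hl hne (hc0 u h2) (hc1 v h3) hp
      · exact not_prefix_of_ne hl.symm hne.symm (hc1 u h2) (hc0 v h3) hp
      · exact hA1 h2 h3 huv hp
    have hdisj : Disjoint A0 A1 := by
      rw [Finset.disjoint_left]
      intro u h2 h3
      exact not_prefix_of_ne hl hne (hc0 u h2) (hc1 u h3) List.prefix_rfl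
    have hsum : ∑ u ∈ A0 ∪ A1, z u = ∑ u ∈ A0, z u + ∑ u ∈ A1, z u :=
      Finset.sum_union hdisj
    have hpre : ∀ b : Bool, t <+: t ++ [b] := fun b => List.prefix_append t [b]
    by_cases hcase : z t ≤ ∑ u ∈ A0, z u + ∑ u ∈ A1, z u
    · refine ⟨A0 ∪ A1, hAC, ?_, ?_⟩
      · intro u hu
        rcases Finset.mem_union.1 hu with h | h
        · exact (hpre _).trans (hc0 u h)
        · exact (hpre _).trans (hc1 u h)
      · rw [hsum]
        simp only [Sm]
        have h5 := mul_le_mul_of_nonneg_left hcase (hφ t)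
        nlinarith
    · refine ⟨{t}, AC.singleton t, ?_, ?_⟩
      · intro u hu
        rw [Finset.mem_singleton.1 hu]
      · rw [Finset.sum_singleton]
        simp only [Sm]
        have h5 : (g - φ t) * (∑ u ∈ A0, z u + ∑ u ∈ A1, z u) ≤ (g - φ t) * z t :=
          mul_le_mul_of_nonneg_left (not_le.1 hcase).le hg'
        nlinarith

/-- The form used below. -/
lemma key' {φ : Nd → ℝ} (hφ : ∀ u, 0 ≤ φ u) {z : Nd → ℝ} (hz : ∀ u, 0 ≤ z u) (t : Nd)
    {g : ℝ} (hg : ∀ w, ps φ t w ≤ g) (hsupp : ∀ u, ¬ t <+: u → z u = 0) (E : Finset Nd) :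
    ∃ A : Finset Nd, AC A ∧ (∀ u ∈ A, t <+: u ∧ z u ≠ 0) ∧
      ∑ u ∈ E, φ u * z u ≤ g * ∑ u ∈ A, z u := by
  classical
  obtain ⟨n, hn⟩ : ∃ n : ℕ, ∀ u ∈ E, u.length ≤ t.length + n := by
    refine ⟨E.sup List.length, fun u hu => ?_⟩
    exact (Finset.le_sup (f := List.length) hu).trans (by omega)
  obtain ⟨A, hA, hc, hs⟩ := key hφ hz n t g hg
  refine ⟨A.filter (fun u => z u ≠ 0), hA.subset (Finset.filter_subset _ _), ?_, ?_⟩
  · intro u hu
    obtain ⟨h1, h2⟩ := Finset.mem_filter.1 hu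
    exact ⟨hc u h1, h2⟩
  · have h1 : ∑ u ∈ E, φ u * z u = ∑ u ∈ E.filter (fun u => t <+: u), φ u * z u := by
      rw [Finset.sum_filter]
      refine Finset.sum_congr rfl fun u _ => ?_
      by_cases h : t <+: u
      · simp [h]
      · simp [h, hsupp u h]
    have h2 : ∑ u ∈ A.filter (fun u => z u ≠ 0), z u = ∑ u ∈ A, z u := Finset.sum_filter_ne_zero A
    rw [h1, h2]
    refine (sum_le_Sm (fun u => mul_nonneg (hφ u) (hz u)) n t _ ?_).trans hs
    intro u hu
    obtain ⟨h3, h4⟩ := Finset.mem_filter.1 hu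
    exact ⟨h4, hn u h3⟩

end Pool.Agent.X212.Stop
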