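import Pool.Agent.X212.Stop.Core

/-!
The main approximation theorem.
-/

set_option autoImplicit false

namespace Pool.Agent.X212.Stop

open Finset

lemma stNorm_zero_le (x : Nd →₀ ℝ) : 0 ≤ stNorm x := by
  have := le_stNorm x AC.empty
  simpa using this

theorem core {φ : Nd → ℝ} (hφ : ∀ u, 0 ≤ φ u) {M : ℝ} (hM : ∀ w, ps φ [] w ≤ M)
    (x₀ : Nd →₀ ℝ) (hx₀ : stNorm x₀ ≤ 1) {ε : ℝ} (hε : 0 < ε) :
    ∃ x' : Nd →₀ ℝ, stNorm x' ≤ 1 ∧ (∀ E : Finset Nd, ∑ u ∈ E, φ u * |x' u - x₀ u| ≤ ε) ∧
      ∃ T' : Finset Nd, ∃ η > 0, ∀ y : Nd →₀ ℝ, stNorm y ≤ 1 + η →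
        (∀ u ∈ T', |y u - x' u| ≤ η) → ∀ E : Finset Nd, ∑ u ∈ E, φ u * |y u - x' u| ≤ ε := by
  classical
  have hM0 : 0 ≤ M := (ps_nonneg hφ _ _).trans (hM [])
  -- the level of the support
  obtain ⟨n, hn⟩ : ∃ n : ℕ, ∀ u : Nd, x₀ u ≠ 0 → u.length ≤ n := by
    refine ⟨x₀.support.sup List.length, fun u hu => ?_⟩
    exact Finset.le_sup (f := List.length) (Finsupp.mem_support_iff.2 hu)
  let S : Finset Nd := (List.finite_length_eq Bool (n + 1)).toFinset
  have hS : ∀ s, s ∈ S ↔ s.length = n + 1 := fun s => by simp [S]
  let TN : Finset Nd := (List.finite_length_le Bool n).toFinset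
  have hTN : ∀ s, s ∈ TN ↔ s.length ≤ n := fun s => by simp [TN]
  have h1 : ∀ s : Nd, ∃ v : Nd, ∀ w, ps φ (s ++ v) w ≤ ε / 4 := fun s =>
    exists_small hφ hM s (by positivity)
  choose v hv using h1
  let t : Nd → Nd := fun s => s ++ v s
  have hst : ∀ s, s <+: t s := fun s => List.prefix_append _ _
  have htl : ∀ s ∈ S, n + 1 ≤ (t s).length := fun s hs => by
    have := (hst s).length_le
    rwa [(hS s).1 hs] at this
  have htinj : ∀ s ∈ S, ∀ s' ∈ S, t s = t s' → s = s' := by
    intro s hs s' hs' h
    by_contra hne
    exact not_prefix_of_ne (((hS s).1 hs).trans ((hS s').1 hs').symm) hne (hst s)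
      (hst s') (h ▸ List.prefix_rfl)
  have htx₀ : ∀ s ∈ S, x₀ (t s) = 0 := by
    intro s hs
    by_contra h
    have := hn _ h
    have := htl s hs
    omega
  -- the perturbed vectors
  let pert : (Nd → ℝ) → Nd →₀ ℝ := fun a => x₀ + ∑ s ∈ S, Finsupp.single (t s) (a s)
  have hpert_apply : ∀ a u, pert a u = x₀ u + ∑ s ∈ S, (if t s = u then a s else 0) := by
    intro a u
    simp only [pert, Finsupp.add_apply, Finsupp.finsetSum_apply, Finsupp.single_apply]
  have hpert_t : ∀ a, ∀ s ∈ S, pert a (t s) = a s := by
    intro a s hs
    rw [hpert_apply, htx₀ s hs, zero_add, Finset.sum_eq_single s]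
    · simp
    · intro s' hs' hne
      rw [if_neg]
      intro h
      exact hne (htinj s' hs' s hs h)
    · intro h; exact absurd hs h
  have hpert_TN : ∀ a u, u.length ≤ n → pert a u = x₀ u := by
    intro a u hu
    rw [hpert_apply, Finset.sum_eq_zero, add_zero]
    intro s hs
    rw [if_neg]
    intro h
    have := htl s hs
    rw [h] at this
    omega
  have hpert_out : ∀ a u, n < u.length → (∀ s ∈ S, t s ≠ u) → pert a u = 0 := by
    intro a u hu hne
    rw [hpert_apply, Finset.sum_eq_zero, add_zero]
    · by_contra h
      have := hn u h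
      omega
    · intro s hs
      rw [if_neg (hne s hs)]
  -- antichain of the `t s`
  have htAC : AC (S.image t) := by
    intro a ha b hb hab hp
    obtain ⟨s, hs, rfl⟩ := Finset.mem_image.1 (show a ∈ S.image t from ha)
    obtain ⟨s', hs', rfl⟩ := Finset.mem_image.1 (show b ∈ S.image t from hb)
    have hne : s ≠ s' := fun h => hab (by rw [h])
    exact not_prefix_of_ne (((hS s).1 hs).trans ((hS s').1 hs').symm) hne (hst s) (hst s') hp
  -- the admissible weights
  let Ks : Set (Nd → ℝ) := {a | (∀ s, 0 ≤ a s) ∧ stNorm (pert a) ≤ 1}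
  have hK0 : (0 : Nd → ℝ) ∈ Ks := by
    refine ⟨fun _ => le_rfl, ?_⟩
    have : pert 0 = x₀ := by simp [pert]
    rw [this]; exact hx₀
  have hKsum : ∀ a ∈ Ks, ∑ s ∈ S, a s ≤ 1 := by
    intro a ha
    have h2 := (le_stNorm (pert a) htAC).trans ha.2
    rw [Finset.sum_image htinj] at h2
    refine le_trans (Finset.sum_le_sum fun s hs => ?_) h2
    rw [hpert_t a s hs]
    exact le_abs_self _
  let vals : Set ℝ := {r | ∃ a ∈ Ks, r = ∑ s ∈ S, a s}
  have hvb : BddAbove vals := ⟨1, by rintro _ ⟨a, ha, rfl⟩; exact hKsum a ha⟩
  have hvn : vals.Nonempty := ⟨_, 0, hK0, rfl⟩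
  -- the constants
  let cS : ℝ := S.card
  let K : ℝ := TN.card + S.card
  have hcS : 0 ≤ cS := Nat.cast_nonneg _
  have hKn : 0 ≤ K := by positivity
  obtain ⟨δ, hδ0, hδ⟩ : ∃ δ > 0, cS * (M * δ) ≤ ε / 4 := by
    refine ⟨ε / (4 * (cS * M + 1)), by positivity, ?_⟩
    have h3 : 0 < cS * M + 1 := by positivity
    have : cS * (M * (ε / (4 * (cS * M + 1)))) = ε / 4 * (cS * M / (cS * M + 1)) := by
      field_simp
    rw [this]
    have h4 : cS * M / (cS * M + 1) ≤ 1 := by rw [div_le_one h3]; linarith
    nlinarith
  obtain ⟨_, ⟨a, haK, rfl⟩, hamax⟩ := exists_lt_of_lt_csSup hvn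
    (show sSup vals - δ < sSup vals by linarith)
  -- the level of the `t s`
  obtain ⟨n1, hn1⟩ : ∃ n1 : ℕ, ∀ s ∈ S, (t s).length ≤ n1 :=
    ⟨S.sup (fun s => (t s).length), fun s hs => Finset.le_sup (f := fun s => (t s).length) hs⟩
  let T' : Finset Nd := (List.finite_length_le Bool (max n n1)).toFinset
  have hT' : ∀ s, s ∈ T' ↔ s.length ≤ max n n1 := fun s => by simp [T']
  let cT : ℝ := T'.card
  have hcT : 0 ≤ cT := Nat.cast_nonneg _
  obtain ⟨η, hη0, hη1, hη⟩ : ∃ η > 0, η ≤ 1 ∧
      cT * (M * η) + cS * (M * ((K + 1) * η)) ≤ ε / 4 := by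
    let Q := cT * M + cS * (M * (K + 1))
    have hQ : 0 ≤ Q := by positivity
    refine ⟨min 1 (ε / (4 * (Q + 1))), by positivity, min_le_left _ _, ?_⟩
    have h3 : min 1 (ε / (4 * (Q + 1))) ≤ ε / (4 * (Q + 1)) := min_le_right _ _
    have h5 : cT * (M * min 1 (ε / (4 * (Q + 1)))) +
        cS * (M * ((K + 1) * min 1 (ε / (4 * (Q + 1))))) = Q * min 1 (ε / (4 * (Q + 1))) := by
      simp only [Q]; ring
    rw [h5]
    have h6 : Q * min 1 (ε / (4 * (Q + 1))) ≤ Q * (ε / (4 * (Q + 1))) :=
      mul_le_mul_of_nonneg_left h3 hQ
    have h7 : Q * (ε / (4 * (Q + 1))) = ε / 4 * (Q / (Q + 1)) := by field_simp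
    have h8 : Q / (Q + 1) ≤ 1 := by rw [div_le_one (by linarith)]; linarith
    nlinarith
  have hpx : ∀ u, |pert a u - x₀ u| = ∑ s ∈ S, (if t s = u then a s else 0) := by
    intro u
    rw [hpert_apply, add_sub_cancel_left, abs_of_nonneg]
    refine Finset.sum_nonneg fun s _ => ?_
    by_cases h : t s = u
    · simp [h, haK.1 s]
    · simp [h]
  refine ⟨pert a, haK.2, ?_, T', η, hη0, ?_⟩
  · intro E
    have h2 : ∑ u ∈ E, φ u * |pert a u - x₀ u| ≤ ∑ s ∈ S, φ (t s) * a s := by
      calc ∑ u ∈ E, φ u * |pert a u - x₀ u|
          = ∑ s ∈ S, ∑ u ∈ E, φ u * (if t s = u then a s else 0) := by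
            rw [Finset.sum_comm]
            refine Finset.sum_congr rfl fun u _ => ?_
            rw [hpx, Finset.mul_sum]
        _ ≤ ∑ s ∈ S, φ (t s) * a s := by
            refine Finset.sum_le_sum fun s _ => ?_
            by_cases h : t s ∈ E
            · rw [Finset.sum_eq_single_of_mem (t s) h]
              · simp
              · intro u _ hu
                simp [hu.symm]
            · rw [Finset.sum_eq_zero]
              · exact mul_nonneg (hφ _) (haK.1 s)
              · intro u hu
                have : t s ≠ u := fun h' => h (h' ▸ hu)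
                simp [this]
    have h3 : ∑ s ∈ S, φ (t s) * a s ≤ ∑ s ∈ S, ε / 4 * a s :=
      Finset.sum_le_sum fun s _ => mul_le_mul_of_nonneg_right (hv s []) (haK.1 s)
    rw [← Finset.mul_sum] at h3
    have h4 := hKsum a haK
    have h5 : ε / 4 * ∑ s ∈ S, a s ≤ ε / 4 * 1 := mul_le_mul_of_nonneg_left h4 (by positivity)
    linarith
  · intro y hy hyx E
    -- the three parts
    let z1 : Nd → ℝ := fun u => if u ∈ T' then η else 0
    let z2 : Nd → Nd → ℝ := fun s u => if t s <+: u ∧ u ∉ T' then |y u| else 0
    let z3 : Nd → Nd → ℝ := fun s u =>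
      if s <+: u ∧ ¬ t s <+: u ∧ ¬ u <+: t s then |y u| else 0
    have hz1 : ∀ u, 0 ≤ z1 u := fun u => by simp only [z1]; split_ifs <;> positivity
    have hz2 : ∀ s u, 0 ≤ z2 s u := fun s u => by simp only [z2]; split_ifs <;> positivity
    have hz3 : ∀ s u, 0 ≤ z3 s u := fun s u => by simp only [z3]; split_ifs <;> positivity
    have hdec : ∀ u, |y u - pert a u| ≤ z1 u + ∑ s ∈ S, (z2 s u + z3 s u) := by
      intro u
      by_cases hu : u ∈ T'
      · have h2 : z1 u = η := if_pos hu
        rw [h2]
        exact (hyx u hu).trans (le_add_of_nonneg_right (Finset.sum_nonneg fun s _ =>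
          add_nonneg (hz2 s u) (hz3 s u)))
      · have hul : max n n1 < u.length := by
          rw [hT'] at hu; exact not_le.1 hu
        have hnu : n < u.length := lt_of_le_of_lt (le_max_left _ _) hul
        have hn1u : n1 < u.length := lt_of_le_of_lt (le_max_right _ _) hul
        have hp0 : pert a u = 0 := hpert_out a u hnu fun s hs h => by
          have := hn1 s hs
          rw [h] at this
          omega
        rw [hp0, sub_zero]
        let s : Nd := u.take (n + 1)
        have hsS : s ∈ S := (hS s).2 (by simp only [s, List.length_take]; omega)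
        have hsu : s <+: u := List.take_prefix _ _
        have h3 : |y u| ≤ z2 s u + z3 s u := by
          by_cases h4 : t s <+: u
          · have : z2 s u = |y u| := if_pos ⟨h4, hu⟩
            rw [this]
            exact le_add_of_nonneg_right (hz3 s u)
          · have h5 : ¬ u <+: t s := by
              intro h
              have := h.length_le
              have := hn1 s hsS
              omega
            have : z3 s u = |y u| := if_pos ⟨hsu, h4, h5⟩
            rw [this]
            exact le_add_of_nonneg_left (hz2 s u)
        have h4 : z2 s u + z3 s u ≤ ∑ s ∈ S, (z2 s u + z3 s u) :=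
          Finset.single_le_sum (f := fun s => z2 s u + z3 s u)
            (fun s _ => add_nonneg (hz2 s u) (hz3 s u)) hsS
        linarith [hz1 u]
    -- first part
    have hW1 : ∑ u ∈ E, φ u * z1 u ≤ cT * (M * η) := by
      calc ∑ u ∈ E, φ u * z1 u = ∑ u ∈ E.filter (· ∈ T'), φ u * η := by
            rw [Finset.sum_filter]
            refine Finset.sum_congr rfl fun u _ => ?_
            by_cases h : u ∈ T' <;> simp [z1, h]
        _ ≤ ∑ u ∈ T', φ u * η :=
            Finset.sum_le_sum_of_subset_of_nonneg (fun u hu => (Finset.mem_filter.1 hu).2)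
              fun _ _ _ => mul_nonneg (hφ _) hη0.le
        _ ≤ ∑ _u ∈ T', M * η :=
            Finset.sum_le_sum fun u _ => mul_le_mul_of_nonneg_right (le_M hφ hM u) hη0.le
        _ = cT * (M * η) := by rw [Finset.sum_const, nsmul_eq_mul]
    -- second part
    have h2 : ∀ s : Nd, ∃ A : Finset Nd, AC A ∧ (∀ u ∈ A, t s <+: u ∧ z2 s u ≠ 0) ∧
        ∑ u ∈ E, φ u * z2 s u ≤ ε / 4 * ∑ u ∈ A, z2 s u := fun s =>
      key' hφ (hz2 s) (t s) (hv s) (fun u hu => if_neg fun h => hu h.1) E
    choose A hA hAt hAs using h2
    have hW2 : ∑ s ∈ S, ∑ u ∈ E, φ u * z2 s u ≤ ε / 4 * (1 + η) := by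
      have h3 : ∑ s ∈ S, ∑ u ∈ A s, z2 s u ≤ 1 + η := by
        have hdisj : (S : Set Nd).PairwiseDisjoint A := by
          intro s hs s' hs' hne
          rw [Function.onFun, Finset.disjoint_left]
          intro u hu hu'
          exact not_prefix_of_ne (((hS s).1 hs).trans ((hS s').1 hs').symm) hne
            ((hst s).trans (hAt s u hu).1) ((hst s').trans (hAt s' u hu').1) List.prefix_rfl
        have hACU : AC (S.biUnion A) := by
          intro u hu v' hv' huv hp
          obtain ⟨s, hs, hus⟩ := Finset.mem_biUnion.1 (show u ∈ S.biUnion A from hu)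
          obtain ⟨s', hs', hvs⟩ := Finset.mem_biUnion.1 (show v' ∈ S.biUnion A from hv')
          by_cases hss : s = s'
          · subst hss
            exact hA s hus hvs huv hp
          · exact not_prefix_of_ne (((hS s).1 hs).trans ((hS s').1 hs').symm) hss
              ((hst s).trans (hAt s u hus).1) ((hst s').trans (hAt s' v' hvs).1) hp
        have h4 := (le_stNorm y hACU).trans hy
        rw [Finset.sum_biUnion hdisj] at h4
        refine le_trans (Finset.sum_le_sum fun s _ => Finset.sum_le_sum fun u _ => ?_) h4
        simp only [z2]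
        split_ifs
        · exact le_rfl
        · exact abs_nonneg _
      calc ∑ s ∈ S, ∑ u ∈ E, φ u * z2 s u ≤ ∑ s ∈ S, ε / 4 * ∑ u ∈ A s, z2 s u :=
            Finset.sum_le_sum fun s _ => hAs s
        _ = ε / 4 * ∑ s ∈ S, ∑ u ∈ A s, z2 s u := by rw [Finset.mul_sum]
        _ ≤ ε / 4 * (1 + η) := mul_le_mul_of_nonneg_left h3 (by positivity)
    -- third part
    have hb : ∀ s ∈ S, ∑ u ∈ E, φ u * z3 s u ≤ M * (δ + (K + 1) * η) := by
      intro s hs
      obtain ⟨B, hB, hBs, hBE⟩ := key' hφ (hz3 s) s (ps_le hφ hM s)
        (fun u hu => if_neg fun h => hu h.1) E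
      have hBz : ∀ u ∈ B, s <+: u ∧ ¬ t s <+: u ∧ ¬ u <+: t s := by
        intro u hu
        by_contra h
        exact (hBs u hu).2 (if_neg h)
      have hBy : ∑ u ∈ B, z3 s u = ∑ u ∈ B, |y u| :=
        Finset.sum_congr rfl fun u hu => if_pos (hBz u hu)
      let b : ℝ := ∑ u ∈ B, |y u|
      have hbb : b ≤ δ + (K + 1) * η := by
        by_contra hcon
        have hcon' : δ + (K + 1) * η < b := not_le.1 hcon
        let b' : ℝ := b - (K + 1) * η
        have hb'δ : δ < b' := by simp only [b']; linarith
        have hb'0 : 0 ≤ b' := hδ0.le.trans hb'δ.le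
        let a' : Nd → ℝ := fun r => if r = s then a r + b' else a r
        have ha'K : a' ∈ Ks := by
          refine ⟨fun r => ?_, ?_⟩
          · simp only [a']
            split_ifs
            · exact add_nonneg (haK.1 r) hb'0
            · exact haK.1 r
          · refine stNorm_le fun C hC => ?_
            -- restrict to the relevant nodes
            let C' : Finset Nd := C.filter (fun u => u ∈ TN ∪ S.image t)
            have hC'C : C' ⊆ C := Finset.filter_subset _ _
            have h3 : ∑ u ∈ C, |pert a' u| = ∑ u ∈ C', |pert a' u| := by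
              rw [Finset.sum_filter]
              refine Finset.sum_congr rfl fun u _ => ?_
              by_cases h : u ∈ TN ∪ S.image t
              · rw [if_pos h]
              · rw [if_neg h]
                rw [Finset.mem_union, not_or, hTN] at h
                rw [hpert_out a' u (not_le.1 h.1) (fun r hr hru => h.2
                  (Finset.mem_image.2 ⟨r, hr, hru⟩)), abs_zero]
            rw [h3]
            -- the new vector agrees with the old one off `t s`
            have hagree : ∀ u ∈ C', u ≠ t s → pert a' u = pert a u := by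
              intro u hu hne
              rcases Finset.mem_union.1 (Finset.mem_filter.1 hu).2 with h | h
              · rw [hpert_TN _ _ ((hTN u).1 h), hpert_TN _ _ ((hTN u).1 h)]
              · obtain ⟨r, hr, rfl⟩ := Finset.mem_image.1 h
                rw [hpert_t _ r hr, hpert_t _ r hr]
                have : r ≠ s := fun h => hne (by rw [h])
                simp [a', this]
            by_cases hts : t s ∈ C'
            · -- use the antichain `C' ∪ B`
              have hAC : AC (C' ∪ B) := by
                have hinc : ∀ u ∈ C', ∀ w ∈ B, ¬ u <+: w ∧ ¬ w <+: u := by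
                  intro u hu w hw
                  obtain ⟨hsw, hw1, hw2⟩ := hBz w hw
                  rcases Finset.mem_union.1 (Finset.mem_filter.1 hu).2 with h | h
                  · have hul := (hTN u).1 h
                    have hsl := (hS s).1 hs
                    constructor
                    · intro huw
                      have h5 : u <+: s :=
                        List.prefix_of_prefix_length_le huw hsw (by omega)
                      have h6 : u ≠ t s := by
                        intro h7
                        have := htl s hs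
                        rw [← h7] at this
                        omega
                      exact hC (hC'C hu) (hC'C hts) h6 (h5.trans (hst s))
                    · intro hwu
                      have h5 := hwu.length_le
                      have h6 := hsw.length_le
                      omega
                  · obtain ⟨r, hr, rfl⟩ := Finset.mem_image.1 h
                    by_cases hrs : r = s
                    · subst hrs
                      exact ⟨hw1, hw2⟩
                    · exact ⟨not_prefix_of_ne (((hS r).1 hr).trans ((hS s).1 hs).symm) hrs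
                          (hst r) hsw,
                        not_prefix_of_ne (((hS s).1 hs).trans ((hS r).1 hr).symm)
                          (Ne.symm hrs) hsw (hst r)⟩
                intro u hu w hw huw hp
                rcases Finset.mem_union.1 (show u ∈ C' ∪ B from hu) with h5 | h5 <;>
                  rcases Finset.mem_union.1 (show w ∈ C' ∪ B from hw) with h6 | h6
                · exact hC (hC'C h5) (hC'C h6) huw hp
                · exact (hinc u h5 w h6).1 hp
                · exact (hinc w h6 u h5).2 hp
                · exact hB h5 h6 huw hp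
              have hdisj : Disjoint C' B := by
                rw [Finset.disjoint_left]
                intro u hu hu'
                rcases Finset.mem_union.1 (Finset.mem_filter.1 hu).2 with h | h
                · have h5 := (hTN u).1 h
                  have h6 := (hBz u hu').1.length_le
                  have h7 := (hS s).1 hs
                  omega
                · obtain ⟨r, hr, rfl⟩ := Finset.mem_image.1 h
                  by_cases hrs : r = s
                  · subst hrs
                    exact (hBz _ hu').2.1 List.prefix_rfl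
                  · exact not_prefix_of_ne (((hS r).1 hr).trans ((hS s).1 hs).symm) hrs
                      (hst r) (hBz _ hu').1 List.prefix_rfl
              have h4 := (le_stNorm y hAC).trans hy
              rw [Finset.sum_union hdisj] at h4
              have h5 : ∑ u ∈ C', |pert a u| ≤ ∑ u ∈ C', (|y u| + η) := by
                refine Finset.sum_le_sum fun u hu => ?_
                have huT : u ∈ T' := by
                  rw [hT']
                  rcases Finset.mem_union.1 (Finset.mem_filter.1 hu).2 with h | h
                  · exact ((hTN u).1 h).trans (le_max_left _ _)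
                  · obtain ⟨r, hr, rfl⟩ := Finset.mem_image.1 h
                    exact (hn1 r hr).trans (le_max_right _ _)
                have h6 := hyx u huT
                have h7 := abs_sub_abs_le_abs_sub (pert a u) (y u)
                rw [abs_sub_comm] at h7
                linarith
              have h6 : (C'.card : ℝ) ≤ K := by
                have : C'.card ≤ TN.card + S.card := by
                  refine (Finset.card_le_card (fun u hu => (Finset.mem_filter.1 hu).2)).trans ?_
                  refine (Finset.card_union_le _ _).trans ?_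
                  exact Nat.add_le_add_left Finset.card_image_le _
                simp only [K]
                exact_mod_cast this
              rw [Finset.sum_add_distrib, Finset.sum_const, nsmul_eq_mul] at h5
              have h7 : (C'.card : ℝ) * η ≤ K * η := mul_le_mul_of_nonneg_right h6 hη0.le
              have h8 : ∑ u ∈ C', |pert a' u| = ∑ u ∈ C', |pert a u| + b' := by
                rw [← Finset.add_sum_erase _ _ hts, ← Finset.add_sum_erase _ _ hts]
                have h9 : ∑ u ∈ C'.erase (t s), |pert a' u| = ∑ u ∈ C'.erase (t s), |pert a u| :=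
                  Finset.sum_congr rfl fun u hu => by
                    rw [hagree u (Finset.mem_of_mem_erase hu) (Finset.ne_of_mem_erase hu)]
                rw [h9, hpert_t _ s hs, hpert_t _ s hs]
                simp only [a', if_true]
                rw [abs_of_nonneg (add_nonneg (haK.1 s) hb'0), abs_of_nonneg (haK.1 s)]
                ring
              rw [h8]
              simp only [b']
              have h10 : (K + 1) * η = K * η + η := by ring
              have h11 : b = ∑ u ∈ B, |y u| := rfl
              rw [h11, h10]
              linarith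
            · have h4 : ∑ u ∈ C', |pert a' u| = ∑ u ∈ C', |pert a u| :=
                Finset.sum_congr rfl fun u hu => by
                  rw [hagree u hu (fun h => hts (h ▸ hu))]
              rw [h4]
              exact (le_stNorm (pert a) (hC.subset hC'C)).trans haK.2
        have h3 : ∑ r ∈ S, a' r = ∑ r ∈ S, a r + b' := by
          rw [← Finset.add_sum_erase _ _ hs, ← Finset.add_sum_erase _ _ hs]
          have h9 : ∑ r ∈ S.erase s, a' r = ∑ r ∈ S.erase s, a r :=
            Finset.sum_congr rfl fun r hr => by
              simp [a', Finset.ne_of_mem_erase hr]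
          rw [h9]
          simp only [a', if_true]
          ring
        have h4 : ∑ r ∈ S, a' r ≤ sSup vals := le_csSup hvb ⟨a', ha'K, rfl⟩
        linarith
      rw [hBy] at hBE
      exact hBE.trans (mul_le_mul_of_nonneg_left hbb hM0)
    have hW3 : ∑ s ∈ S, ∑ u ∈ E, φ u * z3 s u ≤ cS * (M * (δ + (K + 1) * η)) := by
      refine (Finset.sum_le_sum hb).trans ?_
      rw [Finset.sum_const, nsmul_eq_mul]
    calc ∑ u ∈ E, φ u * |y u - pert a u|
        ≤ ∑ u ∈ E, φ u * (z1 u + ∑ s ∈ S, (z2 s u + z3 s u)) :=
          Finset.sum_le_sum fun u _ => mul_le_mul_of_nonneg_left (hdec u) (hφ u)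
      _ = ∑ u ∈ E, φ u * z1 u + (∑ s ∈ S, ∑ u ∈ E, φ u * z2 s u +
          ∑ s ∈ S, ∑ u ∈ E, φ u * z3 s u) := by
          rw [Finset.sum_comm (s := S), Finset.sum_comm (s := S), ← Finset.sum_add_distrib,
            ← Finset.sum_add_distrib]
          refine Finset.sum_congr rfl fun u _ => ?_
          rw [mul_add, Finset.mul_sum, ← Finset.sum_add_distrib]
          congr 1
          refine Finset.sum_congr rfl fun s _ => ?_
          ring
      _ ≤ cT * (M * η) + (ε / 4 * (1 + η) + cS * (M * (δ + (K + 1) * η))) :=
          add_le_add hW1 (add_le_add hW2 hW3)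
      _ ≤ ε := by
          have h3 : ε / 4 * (1 + η) ≤ ε / 4 * 2 :=
            mul_le_mul_of_nonneg_left (by linarith) (by positivity)
          have h4 : cS * (M * (δ + (K + 1) * η)) = cS * (M * δ) + cS * (M * ((K + 1) * η)) := by
            ring
          linarith

end Pool.Agent.X212.Stop
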