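import Pool.Agent.X212.Stop.Main

/-!
The stopping time space as a Banach space.
-/

set_option autoImplicit false

namespace Pool.Agent.X212.Stop

open Finset

/-- The space of finitely supported real families indexed by the nodes of the binary tree. -/
def Fam : Type := Nd →₀ ℝ

noncomputable instance : AddCommGroup Fam := inferInstanceAs (AddCommGroup (Nd →₀ ℝ))

noncomputable instance : Module ℝ Fam := inferInstanceAs (Module ℝ (Nd →₀ ℝ))

/-- The supremum over the antichains of the sum of the absolute values. -/
noncomputable instance : Norm Fam := ⟨fun x => stNorm x⟩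

lemma norm_def (x : Fam) : ‖x‖ = stNorm x := rfl

lemma core_fam : NormedSpace.Core ℝ Fam where
  norm_nonneg x := stNorm_zero_le x
  norm_smul c x := by
    show stNorm (c • (show Nd →₀ ℝ from x)) = |c| * stNorm x
    unfold stNorm
    rw [Real.mul_iSup_of_nonneg (abs_nonneg c)]
    refine iSup_congr fun A => ?_
    rw [Finset.mul_sum]
    refine Finset.sum_congr rfl fun t _ => ?_
    rw [Finsupp.smul_apply, smul_eq_mul, abs_mul]
  norm_triangle x y := by
    refine stNorm_le (x := (show Nd →₀ ℝ from x) + (show Nd →₀ ℝ from y)) fun A hA => ?_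
    calc ∑ t ∈ A, |((show Nd →₀ ℝ from x) + (show Nd →₀ ℝ from y)) t|
        ≤ ∑ t ∈ A, (|(show Nd →₀ ℝ from x) t| + |(show Nd →₀ ℝ from y) t|) :=
          Finset.sum_le_sum fun t _ => by rw [Finsupp.add_apply]; exact abs_add_le _ _
      _ ≤ _ := by
          rw [Finset.sum_add_distrib]
          exact add_le_add (le_stNorm _ hA) (le_stNorm _ hA)
  norm_eq_zero_iff x := by
    constructor
    · intro h
      have h' : stNorm (show Nd →₀ ℝ from x) = 0 := h
      refine Finsupp.ext (f := (show Nd →₀ ℝ from x)) (g := 0) fun t => ?_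
      have h1 := le_stNorm (show Nd →₀ ℝ from x) (AC.singleton t)
      rw [h', Finset.sum_singleton] at h1
      exact abs_eq_zero.1 (le_antisymm h1 (abs_nonneg _))
    · rintro rfl
      show stNorm (0 : Nd →₀ ℝ) = 0
      refine le_antisymm (stNorm_le fun A _ => by simp) (stNorm_zero_le _)

noncomputable instance : NormedAddCommGroup Fam := NormedAddCommGroup.ofCore core_fam

noncomputable instance : NormedSpace ℝ Fam := NormedSpace.ofCore core_fam

/-- The stopping time space: the completion of the finitely supported families. -/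
abbrev X : Type := UniformSpace.Completion Fam

/-- The identification of finitely supported functions with the normed space of families. -/
noncomputable def toFam : (Nd →₀ ℝ) ≃ₗ[ℝ] Fam := LinearEquiv.refl ℝ (Nd →₀ ℝ)

/-- The inclusion of the families. -/
noncomputable abbrev incl : Fam →L[ℝ] X := UniformSpace.Completion.toComplL

/-- The inclusion of the finitely supported functions. -/
noncomputable def emb : (Nd →₀ ℝ) →ₗ[ℝ] X := (incl : Fam →ₗ[ℝ] X) ∘ₗ (toFam : (Nd →₀ ℝ) →ₗ[ℝ] Fam)

lemma emb_eq (x : Nd →₀ ℝ) : emb x = incl (toFam x) := rfl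

lemma norm_emb (x : Nd →₀ ℝ) : ‖emb x‖ = stNorm x := UniformSpace.Completion.norm_coe (toFam x)

/-- The coordinate functionals on the finitely supported families. -/
noncomputable def coord₀ (t : Nd) : Fam →L[ℝ] ℝ :=
  LinearMap.mkContinuous ((Finsupp.lapply t : (Nd →₀ ℝ) →ₗ[ℝ] ℝ) ∘ₗ
    (toFam.symm : Fam →ₗ[ℝ] (Nd →₀ ℝ))) 1 (by
    intro x
    rw [one_mul]
    have h1 := le_stNorm (toFam.symm x) (AC.singleton t)
    rw [Finset.sum_singleton] at h1
    exact h1)

lemma denseRange_incl : DenseRange incl := UniformSpace.Completion.denseRange_coe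

lemma denseRange_emb : DenseRange emb := denseRange_incl

lemma isUniformInducing_incl : IsUniformInducing incl :=
  UniformSpace.Completion.isUniformInducing_coe Fam

/-- The coordinate functionals. -/
noncomputable def coord (t : Nd) : X →L[ℝ] ℝ := (coord₀ t).extend incl

lemma coord_emb (t : Nd) (x : Nd →₀ ℝ) : coord t (emb x) = x t := by
  rw [coord, emb_eq, ContinuousLinearMap.extend_eq _ denseRange_incl isUniformInducing_incl]
  rfl

lemma abs_coord_le (t : Nd) (x : X) : |coord t x| ≤ ‖x‖ := by
  refine denseRange_emb.induction_on (p := fun x => |coord t x| ≤ ‖x‖) x ?_ ?_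
  · exact isClosed_le ((coord t).continuous.abs) continuous_norm
  · intro y
    rw [coord_emb, norm_emb]
    have h1 := le_stNorm y (AC.singleton t)
    rwa [Finset.sum_singleton] at h1

/-- Signed path vectors. -/
noncomputable def pv (σ : Nd → ℝ) : Nd → Nd → (Nd →₀ ℝ)
  | t, [] => Finsupp.single t (σ t)
  | t, b :: w => Finsupp.single t (σ t) + pv σ (t ++ [b]) w

lemma pv_supp (σ : Nd → ℝ) (t w u : Nd) (h : ¬ t <+: u) : pv σ t w u = 0 := by
  induction w generalizing t with
  | nil =>
    simp only [pv]
    rw [Finsupp.single_apply, if_neg]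
    rintro rfl
    exact h List.prefix_rfl
  | cons b w ih =>
    simp only [pv, Finsupp.add_apply]
    rw [Finsupp.single_apply, if_neg, ih, zero_add]
    · intro h'
      exact h ((List.prefix_append t [b]).trans h')
    · rintro rfl
      exact h List.prefix_rfl

lemma pv_norm {σ : Nd → ℝ} (hσ : ∀ u, |σ u| ≤ 1) (t w : Nd) : stNorm (pv σ t w) ≤ 1 := by
  induction w generalizing t with
  | nil =>
    refine stNorm_le fun A _ => ?_
    simp only [pv]
    by_cases h : t ∈ A
    · rw [Finset.sum_eq_single_of_mem t h]
      · simpa using hσ t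
      · intro u _ hu
        rw [Finsupp.single_apply, if_neg (Ne.symm hu), abs_zero]
    · rw [Finset.sum_eq_zero]
      · norm_num
      · intro u hu
        rw [Finsupp.single_apply, if_neg, abs_zero]
        rintro rfl
        exact h hu
  | cons b w ih =>
    refine stNorm_le fun A hA => ?_
    simp only [pv]
    by_cases h : t ∈ A
    · rw [Finset.sum_eq_single_of_mem t h]
      · rw [Finsupp.add_apply, Finsupp.single_eq_same, pv_supp, add_zero]
        · exact hσ t
        · intro h'
          have := h'.length_le
          simp at this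
      · intro u hu hne
        rw [Finsupp.add_apply, Finsupp.single_apply, if_neg (Ne.symm hne), pv_supp, add_zero,
          abs_zero]
        intro h'
        exact hA h hu (Ne.symm hne) ((List.prefix_append t [b]).trans h')
    · refine le_trans (Finset.sum_le_sum fun u hu => ?_) ((le_stNorm _ hA).trans (ih (t ++ [b])))
      rw [Finsupp.add_apply, Finsupp.single_apply, if_neg, zero_add]
      rintro rfl
      exact h hu

/-- The unit vectors. -/
noncomputable def e (t : Nd) : X := emb (Finsupp.single t 1)

lemma emb_single (t : Nd) (c : ℝ) : emb (Finsupp.single t c) = c • e t := by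
  rw [e, ← map_smul, Finsupp.smul_single, smul_eq_mul, mul_one]

lemma apply_pv (f : X →L[ℝ] ℝ) (t w : Nd) :
    f (emb (pv (fun u => SignType.sign (f (e u))) t w)) = ps (fun u => |f (e u)|) t w := by
  have h1 : ∀ t : Nd, f (emb (Finsupp.single t ((SignType.sign (f (e t)) : ℝ)))) =
      |f (e t)| := by
    intro t
    rw [emb_single, map_smul, smul_eq_mul]
    exact sign_mul_self _
  induction w generalizing t with
  | nil => exact h1 t
  | cons b w ih =>
    simp only [ps, pv]
    rw [map_add, map_add, ih, h1]

lemma ps_le_norm (f : X →L[ℝ] ℝ) (w : Nd) : ps (fun u => |f (e u)|) [] w ≤ ‖f‖ := by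
  rw [← apply_pv]
  refine (le_abs_self _).trans ((f.le_opNorm _).trans ?_)
  rw [norm_emb]
  have hσ : ∀ u : Nd, |((SignType.sign (f (e u)) : SignType) : ℝ)| ≤ 1 := by
    intro u
    rcases SignType.trichotomy (SignType.sign (f (e u))) with h | h | h <;> simp [h]
  exact mul_le_of_le_one_right (norm_nonneg f) (pv_norm hσ [] w)

lemma ps_sum {ι : Type*} (I : Finset ι) (φ : ι → Nd → ℝ) (t w : Nd) :
    ps (fun u => ∑ i ∈ I, φ i u) t w = ∑ i ∈ I, ps (φ i) t w := by
  induction w generalizing t with
  | nil => rfl
  | cons b w ih =>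
    simp only [ps]
    rw [ih, Finset.sum_add_distrib]

lemma apply_le (f : X →L[ℝ] ℝ) (x : Nd →₀ ℝ) :
    |f (emb x)| ≤ ∑ u ∈ x.support, |f (e u)| * |x u| := by
  have h5 : f (emb x) = ∑ u ∈ x.support, x u * f (e u) := by
    conv_lhs => rw [← Finsupp.sum_single x]
    rw [Finsupp.sum, map_sum, map_sum]
    refine Finset.sum_congr rfl fun u _ => ?_
    rw [emb_single, map_smul, smul_eq_mul]
  rw [h5]
  refine (Finset.abs_sum_le_sum_abs _ _).trans (le_of_eq ?_)
  refine Finset.sum_congr rfl fun u _ => ?_
  rw [abs_mul, mul_comm]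

end Pool.Agent.X212.Stop
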